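import Pool.Agent.Helper39.DB.Final

/-!
# MP_dbae29_al: roots of central elements in groups of type FP

Mess asked whether the centre of the fundamental group of a finite aspherical complex is finitely
generated. The fundamental group of a finite aspherical complex is of type FP over the integers
(the cellular chain complex of the universal cover is a finite resolution of the trivial module by
finitely generated free modules over the integral group ring).

The centre of such a group has finite rank, so the question is about roots of central elements. We
prove that one missing root of prime power order bounds the orders of all roots: if a central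
element `z` is not a `p ^ k`-th power for one prime `p` and one `k`, then the orders of the roots
of `z` are bounded. If the centre has rank one, it follows that the centre is finitely generated,
and that the torsion of the quotient by the centre has bounded exponent.
-/

set_option autoImplicit false

namespace Pool.Agent.Helper39.Old.CentralRoots

open Pool.Agent.Helper27.Mess

universe u

/-- Let `Γ` be a group of type FP over the integers, `z` a central element, `p` a prime and `k` a
natural number such that `z` is not a `p ^ k`-th power in `Γ`. Then the orders of all roots of `z`
divide a fixed positive integer. If moreover every central element has a positive power in the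
subgroup generated by `z`, then the centre of `Γ` is finitely generated, and there is `B ≥ 1` such
that `t ^ B` is central for every `t` in `Γ` some positive power of which is central. -/
theorem result (Γ : Type u) [Group Γ] (hΓ : IsTypeFP Γ) (p k : ℕ) (hp : p.Prime) (z : Γ)
    (hz : z ∈ Subgroup.center Γ) (hroot : ∀ t : Γ, t ^ p ^ k ≠ z) :
    (∃ B : ℕ, 0 < B ∧ ∀ (t : Γ) (q : ℕ), 0 < q → t ^ q = z → q ∣ B) ∧
    ((∀ w ∈ Subgroup.center Γ, ∃ q : ℕ, 0 < q ∧ w ^ q ∈ Subgroup.zpowers z) →
      (Subgroup.center Γ).FG ∧
        ∃ B : ℕ, 0 < B ∧ ∀ t : Γ, (∃ q : ℕ, 0 < q ∧ t ^ q ∈ Subgroup.center Γ) →
          t ^ B ∈ Subgroup.center Γ) :=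
  Pool.Agent.Helper39.DB.roots_main Γ hΓ p k hp z hz hroot

end Pool.Agent.Helper39.Old.CentralRoots
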