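import Pool.Agent.Helper27.Mess.Final

/-!
# MP_dbae29_al: centres of groups of type FP which are detected by finite quotients

Mess asked whether the centre of the fundamental group of a finite aspherical complex is finitely
generated. The fundamental group of a finite aspherical complex is of type FP over the integers
(the cellular chain complex of the universal cover is a finite resolution of the trivial module by
finitely generated free modules over the integral group ring).

We prove that the answer is yes whenever every nontrivial central element survives in some finite
quotient of the group, in particular for all residually finite groups; moreover the orders of the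
torsion elements of the quotient by the centre are then bounded.
-/

set_option autoImplicit false

namespace Pool.Agent.Helper39.Old.ResidualCentre

open Pool.Agent.Helper27.Mess

universe u

/-- Let `Γ` be a group of type FP over the integers such that every nontrivial element of the
centre lies outside some subgroup of finite index (for example, `Γ` residually finite). Then the
centre of `Γ` is finitely generated, and there is `B ≥ 1` such that `t ^ B` is central for every
`t` in `Γ` some positive power of which is central. -/
theorem result (Γ : Type u) [Group Γ] (hΓ : IsTypeFP Γ)
    (hres : ∀ z ∈ Subgroup.center Γ, z ≠ 1 → ∃ N : Subgroup Γ, N.FiniteIndex ∧ z ∉ N) :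
    (Subgroup.center Γ).FG ∧
      ∃ B : ℕ, 0 < B ∧ ∀ t : Γ, (∃ q : ℕ, 0 < q ∧ t ^ q ∈ Subgroup.center Γ) →
        t ^ B ∈ Subgroup.center Γ :=
  center_fg_of_residual Γ hΓ hres

end Pool.Agent.Helper39.Old.ResidualCentre
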